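import Mathlib

/-!
# Counting permutations with prescribed values
-/

set_option autoImplicit false

namespace Pool.Agent.R819.BG

open Nat

variable {X : Type}

lemma ncard_fix [Finite X] (p : X → Prop) :
    {f : Equiv.Perm X | ∀ a, ¬ p a → f a = a}.ncard = (Nat.card {a // p a})! := by
  classical
  have := Fintype.ofFinite X
  have h := Nat.card_congr (Equiv.Perm.subtypeEquivSubtypePerm p)
  rw [Nat.card_perm] at h
  rw [← Nat.card_coe_set_eq, h]
  rfl

/-- the number of permutations with one prescribed value -/
lemma ncard_one [Finite X] (a b : X) : {k : Equiv.Perm X | k a = b}.ncard = (Nat.card X - 1)! := by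
  classical
  have := Fintype.ofFinite X
  have h1 : {k : Equiv.Perm X | k a = b} =
      (fun k => Equiv.swap a b * k) '' {f : Equiv.Perm X | ∀ x, ¬ (x ≠ a) → f x = x} := by
    ext k
    simp only [Set.mem_ofPred_eq, Set.mem_image, not_not]
    constructor
    · intro h
      refine ⟨Equiv.swap a b * k, ?_, ?_⟩
      · rintro x rfl
        simp [h]
      · rw [← mul_assoc, Equiv.swap_mul_self, one_mul]
    · rintro ⟨f, hf, rfl⟩
      simp [hf a rfl]
  rw [h1, Set.ncard_image_of_injective _ (mul_right_injective _), ncard_fix]
  congr 1
  rw [Nat.card_eq_fintype_card, Nat.card_eq_fintype_card, Fintype.card_subtype_compl,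
    Fintype.card_subtype_eq]

/-- the number of permutations with two prescribed values -/
lemma ncard_two [Finite X] (a b a' b' : X) (h : a ≠ a') :
    {k : Equiv.Perm X | k a = b ∧ k a' = b'}.ncard ≤ (Nat.card X - 2)! := by
  classical
  have := Fintype.ofFinite X
  by_cases hbb : b = b'
  · have : {k : Equiv.Perm X | k a = b ∧ k a' = b'} = ∅ := by
      ext k
      simp only [Set.mem_ofPred_eq, Set.mem_empty_iff_false, iff_false]
      rintro ⟨h1, h2⟩
      exact h (k.injective (h1.trans (hbb.trans h2.symm)))
    rw [this, Set.ncard_empty]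
    exact Nat.zero_le _
  · by_cases hne : {k : Equiv.Perm X | k a = b ∧ k a' = b'}.Nonempty
    · obtain ⟨k₀, h1, h2⟩ := hne
      have h3 : {k : Equiv.Perm X | k a = b ∧ k a' = b'} =
          (fun k => k₀ * k) '' {f : Equiv.Perm X | ∀ x, ¬ (x ≠ a ∧ x ≠ a') → f x = x} := by
        ext k
        simp only [Set.mem_ofPred_eq, Set.mem_image]
        constructor
        · rintro ⟨h4, h5⟩
          refine ⟨k₀⁻¹ * k, ?_, by simp⟩
          intro x hx
          have hx' : x = a ∨ x = a' := by tauto
          show k₀.symm (k x) = x
          rcases hx' with rfl | rfl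
          · rw [h4, ← h1, Equiv.symm_apply_apply]
          · rw [h5, ← h2, Equiv.symm_apply_apply]
        · rintro ⟨f, hf, rfl⟩
          have e1 : f a = a := hf a (by tauto)
          have e2 : f a' = a' := hf a' (by tauto)
          simp [e1, e2, h1, h2]
      rw [h3, Set.ncard_image_of_injective _ (mul_right_injective _), ncard_fix]
      apply le_of_eq
      congr 1
      rw [Nat.card_eq_fintype_card, Nat.card_eq_fintype_card, Fintype.card_subtype]
      have h6 : (Finset.univ.filter fun x => x ≠ a ∧ x ≠ a') = (Finset.univ.erase a).erase a' := by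
        ext x
        simp [and_comm]
      rw [h6, Finset.card_erase_of_mem, Finset.card_erase_of_mem (Finset.mem_univ _), Finset.card_univ]
      · rfl
      · simp [Ne.symm h]
    · rw [Set.not_nonempty_iff_eq_empty.mp hne, Set.ncard_empty]
      exact Nat.zero_le _

end Pool.Agent.R819.BG
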