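import Mathlib

/-!
# Permutations extending local maps

`U` is a finite set, `R a` (`a : ι`) are local injections of `U` (injections defined on subsets of `U`). The set
`gen R Y` consists of the permutations of `U ⊕ Y` which extend one of the `R a`. We compare the powers of this set
with the compositions of the local injections.
-/

set_option autoImplicit false

namespace Pool.Agent.R819.BG

open Pointwise

variable {U Y ι : Type}

/-- the composition of the local maps along a word; the head of the list is applied last -/
def comp (R : ι → U → U → Prop) : List ι → U → U → Prop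
  | [], x, y => x = y
  | a :: l, x, y => ∃ w, comp R l x w ∧ R a w y

/-- the set of the permutations of `U ⊕ Y` which extend one of the local maps -/
def gen (R : ι → U → U → Prop) (Y : Type) : Set (Equiv.Perm (U ⊕ Y)) :=
  {g | ∃ a, ∀ x y, R a x y → g (Sum.inl x) = Sum.inl y}

lemma pow_comp (R : ι → U → U → Prop) (r : ℕ) : ∀ g ∈ (gen R Y) ^ r,
    ∃ l : List ι, l.length = r ∧ ∀ x y, comp R l x y → g (Sum.inl x) = Sum.inl y := by
  induction r with
  | zero =>
    intro g hg
    rw [pow_zero, Set.mem_one] at hg
    refine ⟨[], rfl, fun x y h => ?_⟩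
    have : x = y := h
    rw [hg, this]; rfl
  | succ r ih =>
    intro g hg
    rw [pow_succ', Set.mem_mul] at hg
    obtain ⟨h, ⟨a, ha⟩, g', hg', rfl⟩ := hg
    obtain ⟨l, hl, hc⟩ := ih g' hg'
    refine ⟨a :: l, by simp [hl], fun x y hxy => ?_⟩
    obtain ⟨w, hw, hr⟩ := hxy
    rw [Equiv.Perm.mul_apply, hc x w hw, ha w y hr]

lemma comp_fun {R : ι → U → U → Prop} (hfun : ∀ a x y y', R a x y → R a x y' → y = y') :
    ∀ (l : List ι) (x y y' : U), comp R l x y → comp R l x y' → y = y'
  | [], x, y, y', h, h' => by
    have h1 : x = y := h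
    have h2 : x = y' := h'
    rw [← h1, h2]
  | a :: l, x, y, y', h, h' => by
    obtain ⟨w, hw, hr⟩ := h
    obtain ⟨w', hw', hr'⟩ := h'
    have := comp_fun hfun l x w w' hw hw'
    subst this
    exact hfun a w y y' hr hr'

lemma comp_inj {R : ι → U → U → Prop} (hinj : ∀ a x x' y, R a x y → R a x' y → x = x') :
    ∀ (l : List ι) (x x' y : U), comp R l x y → comp R l x' y → x = x'
  | [], x, x', y, h, h' => by
    have h1 : x = y := h
    have h2 : x' = y := h'
    rw [h1, h2]
  | a :: l, x, x', y, h, h' => by
    obtain ⟨w, hw, hr⟩ := h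
    obtain ⟨w', hw', hr'⟩ := h'
    have := hinj a w w' y hr hr'
    subst this
    exact comp_inj hinj l x x' w hw hw'

/-- a local injection of a finite set extends to a permutation -/
lemma exists_perm {X : Type} [Finite X] (s : Set X) (f : X → X) (hf : Set.InjOn f s) :
    ∃ g : Equiv.Perm X, ∀ x ∈ s, g x = f x := by
  classical
  have := Fintype.ofFinite X
  obtain ⟨g, hg⟩ := Finset.exists_equiv_extend_of_card_eq (α := X) (β := X) (t := Finset.univ)
    (by simp) (s := s.toFinset) (f := f) (Finset.subset_univ _) (by
      intro x hx y hy h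
      exact hf (by simpa using hx) (by simpa using hy) h)
  refine ⟨g.trans (Equiv.subtypeUnivEquiv (fun x => Finset.mem_univ x)), fun x hx => ?_⟩
  exact hg x (by simpa using hx)

lemma mem_pow {R : ι → U → U → Prop} (hfun : ∀ a x y y', R a x y → R a x y' → y = y')
    (hinj : ∀ a x x' y, R a x y → R a x' y → x = x') [Finite U] [Finite Y] (e : U ↪ Y) :
    ∀ (l : List ι) (b : ι), ∀ k : Equiv.Perm (U ⊕ Y),
      (∀ x y, k (Sum.inl x) = Sum.inl y ↔ comp R (b :: l) x y) →
      k ∈ (gen R Y) ^ (l.length + 1) := by
  classical
  intro l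
  induction l with
  | nil =>
    intro b k hk
    rw [List.length_nil, zero_add, pow_one]
    refine ⟨b, fun x y h => (hk x y).mpr ⟨x, rfl, h⟩⟩
  | cons c l ih =>
    intro a k hk
    set l1 := c :: l with hl1
    -- the condition of the first case
    let Q : U ⊕ Y → Prop := fun p => ∃ z y, R a z y ∧ k p = Sum.inl y
    let f : U ⊕ Y → U ⊕ Y := fun p =>
      if h : Q p then Sum.inl h.choose else
        match p with
        | Sum.inl x => if h' : ∃ w, comp R l1 x w then Sum.inl h'.choose else Sum.inr (e x)
        | Sum.inr y => Sum.inr y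
    have f1 : ∀ p z y, R a z y → k p = Sum.inl y → f p = Sum.inl z := by
      intro p z y hz hp
      have h : Q p := ⟨z, y, hz, hp⟩
      have e1 : f p = Sum.inl h.choose := dif_pos h
      obtain ⟨y', hy', hy2⟩ := h.choose_spec
      rw [e1]
      rw [hp] at hy2
      have e2 : y = y' := Sum.inl_injective hy2
      subst e2
      exact congrArg _ (hinj a _ _ _ hy' hz)
    have f2 : ∀ x w, comp R l1 x w → f (Sum.inl x) = Sum.inl w := by
      intro x w hw
      by_cases h : Q (Sum.inl x)
      · obtain ⟨z, y, hz, hy⟩ := h
        rw [f1 _ z y hz hy]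
        obtain ⟨w', hw', hr⟩ := (hk x y).mp hy
        have := comp_fun hfun l1 x w w' hw hw'
        subst this
        exact congrArg _ (hinj a _ _ _ hz hr)
      · have h' : ∃ w, comp R l1 x w := ⟨w, hw⟩
        have e1 : f (Sum.inl x) = Sum.inl h'.choose := by
          simp only [f]
          rw [dif_neg h, dif_pos h']
        rw [e1]
        exact congrArg _ (comp_fun hfun l1 x _ _ h'.choose_spec hw)
    have f3 : ∀ x, (¬ ∃ w, comp R l1 x w) → f (Sum.inl x) = Sum.inr (e x) := by
      intro x hx
      have h : ¬ Q (Sum.inl x) := by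
        rintro ⟨z, y, hz, hy⟩
        obtain ⟨w', hw', hr⟩ := (hk x y).mp hy
        exact hx ⟨w', hw'⟩
      simp only [f]
      rw [dif_neg h, dif_neg hx]
    let s : Set (U ⊕ Y) := {p | Q p ∨ ∃ x, p = Sum.inl x}
    have key : ∀ p z y x, R a z y → k p = Sum.inl y → f (Sum.inl x) = Sum.inl z → p = Sum.inl x := by
      intro p z y x hz hp hx
      by_cases hx' : ∃ w, comp R l1 x w
      · obtain ⟨w, hw⟩ := hx'
        rw [f2 x w hw] at hx
        have e1 : w = z := Sum.inl_injective hx
        subst e1
        have : k (Sum.inl x) = Sum.inl y := (hk x y).mpr ⟨w, hw, hz⟩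
        exact k.injective (hp.trans this.symm)
      · rw [f3 x hx'] at hx
        exact absurd hx (by simp)
    have hinjf : Set.InjOn f s := by
      intro p hp q hq hpq
      rcases hp with ⟨z, y, hz, hy⟩ | ⟨x, rfl⟩
      · rw [f1 p z y hz hy] at hpq
        rcases hq with ⟨z', y', hz', hy'⟩ | ⟨x', rfl⟩
        · rw [f1 q z' y' hz' hy'] at hpq
          have e1 : z = z' := Sum.inl_injective hpq
          subst e1
          have e2 := hfun a _ _ _ hz hz'
          subst e2
          exact k.injective (hy.trans hy'.symm)
        · exact key p z y x' hz hy hpq.symm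
      · rcases hq with ⟨z', y', hz', hy'⟩ | ⟨x', rfl⟩
        · rw [f1 q z' y' hz' hy'] at hpq
          exact (key q z' y' x hz' hy' hpq).symm
        · by_cases hx : ∃ w, comp R l1 x w
          · obtain ⟨w, hw⟩ := hx
            rw [f2 x w hw] at hpq
            by_cases hx' : ∃ w, comp R l1 x' w
            · obtain ⟨w', hw'⟩ := hx'
              rw [f2 x' w' hw'] at hpq
              have e1 : w = w' := Sum.inl_injective hpq
              subst e1
              rw [comp_inj hinj l1 x x' w hw hw']
            · rw [f3 x' hx'] at hpq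
              exact absurd hpq (by simp)
          · rw [f3 x hx] at hpq
            by_cases hx' : ∃ w, comp R l1 x' w
            · obtain ⟨w', hw'⟩ := hx'
              rw [f2 x' w' hw'] at hpq
              exact absurd hpq (by simp)
            · rw [f3 x' hx'] at hpq
              rw [e.injective (Sum.inr_injective hpq)]
    obtain ⟨g, hg⟩ := exists_perm s f hinjf
    have hg1 : ∀ x y, g (Sum.inl x) = Sum.inl y ↔ comp R (c :: l) x y := by
      intro x y
      rw [hg _ (Or.inr ⟨x, rfl⟩)]
      constructor
      · intro h
        by_cases hx : ∃ w, comp R l1 x w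
        · obtain ⟨w, hw⟩ := hx
          rw [f2 x w hw] at h
          have e1 : w = y := Sum.inl_injective h
          subst e1
          exact hw
        · rw [f3 x hx] at h
          exact absurd h (by simp)
      · intro h
        exact f2 x y h
    have hg2 := ih c g hg1
    have hh : k * g⁻¹ ∈ gen R Y := by
      refine ⟨a, fun z y hz => ?_⟩
      have h1 : g (k.symm (Sum.inl y)) = Sum.inl z := by
        have hQ : Q (k.symm (Sum.inl y)) := ⟨z, y, hz, by simp⟩
        rw [hg _ (Or.inl hQ)]
        exact f1 _ z y hz (by simp)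
      show k (g.symm (Sum.inl z)) = Sum.inl y
      rw [← h1, Equiv.symm_apply_apply, Equiv.apply_symm_apply]
    rw [List.length_cons, pow_succ', Set.mem_mul]
    exact ⟨k * g⁻¹, hh, g, hg2, by simp⟩

end Pool.Agent.R819.BG
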