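import Mathlib
import Pool.Agent.R819.BG.Grp
import Pool.Agent.R819.BG.Cnt

/-!
# Growth of the powers of the set of the permutations extending local maps
-/

set_option autoImplicit false

namespace Pool.Agent.R819.BG

open Pointwise Nat

variable {U Y ι : Type}

lemma card_up [Finite U] [Finite Y] {R : ι → U → U → Prop} {m : ℕ} (Γ : Finset U)
    (hA : ∀ l : List ι, l.length = m → (∃ x x' y y', x ≠ x' ∧ comp R l x y ∧ comp R l x' y') ∨
      ∃ x ∈ Γ, ∃ y ∈ Γ, comp R l x y) :
    ((gen R Y) ^ m).ncard ≤ Γ.card ^ 2 * (Nat.card (U ⊕ Y) - 1)! +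
      (Nat.card U) ^ 4 * (Nat.card (U ⊕ Y) - 2)! := by
  classical
  have := Fintype.ofFinite U
  let F1 : U × U → Set (Equiv.Perm (U ⊕ Y)) := fun p => {k | k (Sum.inl p.1) = Sum.inl p.2}
  let F2 : (U × U) × (U × U) → Set (Equiv.Perm (U ⊕ Y)) := fun p =>
    {k | p.1.1 ≠ p.2.1 ∧ k (Sum.inl p.1.1) = Sum.inl p.1.2 ∧ k (Sum.inl p.2.1) = Sum.inl p.2.2}
  have hsub : (gen R Y) ^ m ⊆ (⋃ p ∈ Γ ×ˢ Γ, F1 p) ∪
      ⋃ p ∈ (Finset.univ : Finset ((U × U) × (U × U))), F2 p := by
    intro g hg
    obtain ⟨l, hl, hc⟩ := pow_comp R m g hg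
    rcases hA l hl with ⟨x, x', y, y', hne, h1, h2⟩ | ⟨x, hx, y, hy, h1⟩
    · right
      simp only [Set.mem_iUnion]
      exact ⟨((x, y), (x', y')), Finset.mem_univ _, hne, hc x y h1, hc x' y' h2⟩
    · left
      simp only [Set.mem_iUnion]
      exact ⟨(x, y), Finset.mem_product.mpr ⟨hx, hy⟩, hc x y h1⟩
  have h1 := Set.ncard_le_ncard hsub (Set.toFinite _)
  have h2 := h1.trans (Set.ncard_union_le _ _)
  have h3 : (⋃ p ∈ Γ ×ˢ Γ, F1 p).ncard ≤ Γ.card ^ 2 * (Nat.card (U ⊕ Y) - 1)! := by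
    refine (Finset.set_ncard_biUnion_le _ _).trans ?_
    refine (Finset.sum_le_card_nsmul _ _ ((Nat.card (U ⊕ Y) - 1)!) ?_).trans ?_
    · intro p _
      exact (ncard_one (X := U ⊕ Y) (Sum.inl p.1) (Sum.inl p.2)).le
    · rw [Finset.card_product, smul_eq_mul, sq]
  have h4 : (⋃ p ∈ (Finset.univ : Finset ((U × U) × (U × U))), F2 p).ncard ≤
      (Nat.card U) ^ 4 * (Nat.card (U ⊕ Y) - 2)! := by
    refine (Finset.set_ncard_biUnion_le _ _).trans ?_
    refine (Finset.sum_le_card_nsmul _ _ ((Nat.card (U ⊕ Y) - 2)!) ?_).trans ?_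
    · intro p _
      by_cases hp : p.1.1 = p.2.1
      · have : F2 p = ∅ := by
          ext k
          simp only [F2, Set.mem_ofPred_eq, Set.mem_empty_iff_false, iff_false]
          exact fun h => h.1 hp
        rw [this, Set.ncard_empty]
        exact Nat.zero_le _
      · refine le_trans (Set.ncard_le_ncard ?_ (Set.toFinite _))
          (ncard_two (X := U ⊕ Y) (Sum.inl p.1.1) (Sum.inl p.1.2) (Sum.inl p.2.1) (Sum.inl p.2.2)
            (fun h => hp (Sum.inl_injective h)))
        intro k hk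
        exact hk.2
    · rw [Finset.card_univ, Fintype.card_prod, Fintype.card_prod, smul_eq_mul, ← Nat.card_eq_fintype_card (α := U)]
      apply le_of_eq
      ring
  omega

lemma card_lo [Finite U] [Finite Y] {R : ι → U → U → Prop}
    (hfun : ∀ a x y y', R a x y → R a x y' → y = y')
    (hinj : ∀ a x x' y, R a x y → R a x' y → x = x') (e : U ↪ Y) {n : ℕ} (hn : 1 ≤ n)
    (D : Finset (U × U))
    (hB : ∀ p ∈ D, ∃ l : List ι, l.length = n ∧ ∀ x y, comp R l x y ↔ x = p.1 ∧ y = p.2) :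
    D.card * (Nat.card (U ⊕ Y) - 1)! ≤ ((gen R Y) ^ n).ncard +
      D.card * ((Nat.card U) ^ 2 * (Nat.card (U ⊕ Y) - 2)!) := by
  classical
  have := Fintype.ofFinite U
  let E : U × U → Set (Equiv.Perm (U ⊕ Y)) := fun p =>
    {k | ∀ x y, k (Sum.inl x) = Sum.inl y ↔ x = p.1 ∧ y = p.2}
  have hsub : (⋃ p ∈ (D : Set (U × U)), E p) ⊆ (gen R Y) ^ n := by
    intro k hk
    simp only [Set.mem_iUnion] at hk
    obtain ⟨p, hp, hk⟩ := hk
    obtain ⟨l, hl, hc⟩ := hB p hp
    obtain ⟨b, l, rfl⟩ : ∃ b l', l = b :: l' := by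
      cases l with
      | nil => simp only [List.length_nil] at hl; omega
      | cons b l => exact ⟨b, l, rfl⟩
    have := mem_pow hfun hinj e l b k (fun x y => (hk x y).trans (hc x y).symm)
    rw [← hl, List.length_cons]
    exact this
  have hdisj : (D : Set (U × U)).PairwiseDisjoint E := by
    intro p _ q _ hpq
    rw [Function.onFun, Set.disjoint_left]
    intro k hk hk'
    apply hpq
    have h1 := (hk p.1 p.2).mpr ⟨rfl, rfl⟩
    have h2 := (hk' p.1 p.2).mp h1
    exact Prod.ext h2.1 h2.2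
  have hcard : (⋃ p ∈ (D : Set (U × U)), E p).ncard = ∑ p ∈ D, (E p).ncard := by
    rw [Set.Finite.ncard_biUnion D.finite_toSet (fun _ _ => Set.toFinite _) hdisj,
      finsum_mem_coe_finset]
  have hE : ∀ p : U × U, (Nat.card (U ⊕ Y) - 1)! ≤ (E p).ncard +
      (Nat.card U) ^ 2 * (Nat.card (U ⊕ Y) - 2)! := by
    intro p
    let F2 : U × U → Set (Equiv.Perm (U ⊕ Y)) := fun q =>
      {k | p.1 ≠ q.1 ∧ k (Sum.inl p.1) = Sum.inl p.2 ∧ k (Sum.inl q.1) = Sum.inl q.2}
    have hs : {k : Equiv.Perm (U ⊕ Y) | k (Sum.inl p.1) = Sum.inl p.2} ⊆ E p ∪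
        ⋃ q ∈ (Finset.univ : Finset (U × U)), F2 q := by
      intro k hk
      by_cases hkE : k ∈ E p
      · exact Or.inl hkE
      · right
        simp only [E, Set.mem_ofPred_eq, not_forall] at hkE
        obtain ⟨x, y, hxy⟩ := hkE
        simp only [Set.mem_iUnion]
        refine ⟨(x, y), Finset.mem_univ _, ?_, hk, ?_⟩
        · intro hx
          apply hxy
          have hx' : x = p.1 := hx.symm
          constructor
          · intro h
            refine ⟨hx', ?_⟩
            rw [hx'] at h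
            have hk' : k (Sum.inl p.1) = Sum.inl p.2 := hk
            exact Sum.inl_injective (h.symm.trans hk')
          · rintro ⟨h1, h2⟩
            rw [h1, h2]; exact hk
        · show k (Sum.inl x) = Sum.inl y
          by_contra h
          apply hxy
          constructor
          · intro h'; exact absurd h' h
          · rintro ⟨h1, h2⟩
            exfalso; apply h
            rw [h1, h2]; exact hk
    have h1 := Set.ncard_le_ncard hs (Set.toFinite _)
    have h2 := h1.trans (Set.ncard_union_le _ _)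
    rw [ncard_one] at h2
    have h4 : (⋃ q ∈ (Finset.univ : Finset (U × U)), F2 q).ncard ≤
        (Nat.card U) ^ 2 * (Nat.card (U ⊕ Y) - 2)! := by
      refine (Finset.set_ncard_biUnion_le _ _).trans ?_
      refine (Finset.sum_le_card_nsmul _ _ ((Nat.card (U ⊕ Y) - 2)!) ?_).trans ?_
      · intro q _
        by_cases hp : p.1 = q.1
        · have : F2 q = ∅ := by
            ext k
            simp only [F2, Set.mem_ofPred_eq, Set.mem_empty_iff_false, iff_false]
            exact fun h => h.1 hp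
          rw [this, Set.ncard_empty]
          exact Nat.zero_le _
        · refine le_trans (Set.ncard_le_ncard ?_ (Set.toFinite _))
            (ncard_two (X := U ⊕ Y) (Sum.inl p.1) (Sum.inl p.2) (Sum.inl q.1) (Sum.inl q.2)
              (fun h => hp (Sum.inl_injective h)))
          intro k hk
          exact hk.2
      · rw [Finset.card_univ, Fintype.card_prod, smul_eq_mul, ← Nat.card_eq_fintype_card (α := U)]
        apply le_of_eq
        ring
    omega
  have h5 := Set.ncard_le_ncard hsub (Set.toFinite _)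
  rw [hcard] at h5
  have h6 : ∑ p ∈ D, (Nat.card (U ⊕ Y) - 1)! ≤ ∑ p ∈ D, ((E p).ncard +
      (Nat.card U) ^ 2 * (Nat.card (U ⊕ Y) - 2)!) := Finset.sum_le_sum fun p _ => hE p
  rw [Finset.sum_add_distrib, Finset.sum_const, Finset.sum_const, smul_eq_mul, smul_eq_mul] at h6
  omega

lemma card_lo3 [Finite U] [Finite Y] {R : ι → U → U → Prop}
    (hfun : ∀ a x y y', R a x y → R a x y' → y = y')
    (hinj : ∀ a x x' y, R a x y → R a x' y → x = x') (e : U ↪ Y) {n : ℕ} (hn : 1 ≤ n)
    (hC : ∃ l : List ι, l.length = n ∧ ∀ x y, ¬ comp R l x y) :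
    (Nat.card (U ⊕ Y))! ≤ ((gen R Y) ^ n).ncard +
      (Nat.card U) ^ 2 * (Nat.card (U ⊕ Y) - 1)! := by
  classical
  have := Fintype.ofFinite U
  let E : Set (Equiv.Perm (U ⊕ Y)) := {k | ∀ x y, k (Sum.inl x) ≠ Sum.inl y}
  let F1 : U × U → Set (Equiv.Perm (U ⊕ Y)) := fun p => {k | k (Sum.inl p.1) = Sum.inl p.2}
  have hsub : E ⊆ (gen R Y) ^ n := by
    intro k hk
    obtain ⟨l, hl, hc⟩ := hC
    obtain ⟨b, l, rfl⟩ : ∃ b l', l = b :: l' := by
      cases l with
      | nil => simp only [List.length_nil] at hl; omega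
      | cons b l => exact ⟨b, l, rfl⟩
    have := mem_pow hfun hinj e l b k (fun x y => ⟨fun h => absurd h (hk x y),
      fun h => absurd h (hc x y)⟩)
    rw [← hl, List.length_cons]
    exact this
  have huniv : (Set.univ : Set (Equiv.Perm (U ⊕ Y))) ⊆ E ∪
      ⋃ q ∈ (Finset.univ : Finset (U × U)), F1 q := by
    intro k _
    by_cases hk : k ∈ E
    · exact Or.inl hk
    · right
      simp only [E, Set.mem_ofPred_eq, not_forall, not_not] at hk
      obtain ⟨x, y, hxy⟩ := hk
      simp only [Set.mem_iUnion]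
      exact ⟨(x, y), Finset.mem_univ _, hxy⟩
  have h1 := Set.ncard_le_ncard huniv (Set.toFinite _)
  have h2 := h1.trans (Set.ncard_union_le _ _)
  rw [Set.ncard_univ, Nat.card_perm] at h2
  have h3 : (⋃ q ∈ (Finset.univ : Finset (U × U)), F1 q).ncard ≤
      (Nat.card U) ^ 2 * (Nat.card (U ⊕ Y) - 1)! := by
    refine (Finset.set_ncard_biUnion_le _ _).trans ?_
    refine (Finset.sum_le_card_nsmul _ _ ((Nat.card (U ⊕ Y) - 1)!) ?_).trans ?_
    · intro p _
      exact (ncard_one (X := U ⊕ Y) (Sum.inl p.1) (Sum.inl p.2)).le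
    · rw [Finset.card_univ, Fintype.card_prod, smul_eq_mul, ← Nat.card_eq_fintype_card (α := U)]
      apply le_of_eq
      ring
  have h4 := Set.ncard_le_ncard hsub (Set.toFinite _)
  omega

end Pool.Agent.R819.BG
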