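import Mathlib
import Pool.Agent.R819.BG.Grp

/-!
# Local actions and walks

`H` is a group with generators `el i` (`i : ι`), acting on `Ω` by `ρ`. For a finite subset `Γ` of `Ω` and a set `W`
of words we consider the finite set `Us` which is the union of `Γ` and, for every word `v` of length `m` whose walk does
not contain a translate of the walk of a word in `W`, two copies of the walk of `v`. The generators act locally on
this set.
-/

set_option autoImplicit false

namespace Pool.Agent.R819.BG

variable {H ι Ω : Type} [Group H]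

/-- the value of a word -/
def pr (el : ι → H) (l : List ι) : H := (l.map el).prod

@[simp] lemma pr_nil (el : ι → H) : pr el [] = 1 := rfl

@[simp] lemma pr_cons (el : ι → H) (a : ι) (l : List ι) : pr el (a :: l) = el a * pr el l := by
  simp [pr]

lemma pr_append (el : ι → H) (l l' : List ι) : pr el (l ++ l') = pr el l * pr el l' := by
  simp [pr]

/-- the walk of a word: the values of its suffixes (the head of a word is its last step) -/
def tr (el : ι → H) (l : List ι) : Set H := {x | ∃ t, t <:+ l ∧ pr el t = x}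

lemma tr_finite (el : ι → H) (l : List ι) : (tr el l).Finite := by
  have h : tr el l = (pr el) '' {t | t ∈ l.tails} := by
    ext x
    simp [tr]
  rw [h]
  exact (List.finite_toSet _).image _

/-- the walk of `v` contains no right translate of the walk of a word in `W` -/
def Free (el : ι → H) (W : Set (List ι)) (v : List ι) : Prop :=
  ∀ w ∈ W, ∀ x : H, ¬ ∀ t, t <:+ w → pr el t * x ∈ tr el v

/-- the action on `Ω ⊕ (H × (List ι × Bool))` -/
def act (ρ : H →* Equiv.Perm Ω) (h : H) : Ω ⊕ (H × (List ι × Bool)) → Ω ⊕ (H × (List ι × Bool))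
  | Sum.inl y => Sum.inl (ρ h y)
  | Sum.inr p => Sum.inr (h * p.1, p.2)

lemma act_one (ρ : H →* Equiv.Perm Ω) (e : Ω ⊕ (H × (List ι × Bool))) : act ρ 1 e = e := by
  rcases e with y | p
  · simp [act]
  · simp [act]

lemma act_mul (ρ : H →* Equiv.Perm Ω) (g h : H) (e : Ω ⊕ (H × (List ι × Bool))) :
    act ρ (g * h) e = act ρ g (act ρ h e) := by
  rcases e with y | p
  · simp [act]
  · simp [act, mul_assoc]

/-- the finite set -/
def Us (el : ι → H) (Γ : Set Ω) (W : Set (List ι)) (m : ℕ) : Set (Ω ⊕ (H × (List ι × Bool))) :=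
  {e | (∃ y ∈ Γ, e = Sum.inl y) ∨
    ∃ x v c, v.length = m ∧ Free el W v ∧ x ∈ tr el v ∧ e = Sum.inr (x, (v, c))}

lemma us_finite [Finite ι] (el : ι → H) (Γ : Set Ω) (hΓ : Γ.Finite) (W : Set (List ι)) (m : ℕ) :
    (Us el Γ W m).Finite := by
  have h1 : (⋃ v ∈ {l : List ι | l.length = m}, (fun p : H × Bool =>
      (Sum.inr (p.1, (v, p.2)) : Ω ⊕ (H × (List ι × Bool)))) '' (tr el v ×ˢ Set.univ)).Finite :=
    Set.Finite.biUnion (List.finite_length_eq ι m) fun v _ =>
      ((tr_finite el v).prod Set.finite_univ).image _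
  refine ((hΓ.image Sum.inl).union h1).subset ?_
  rintro e (⟨y, hy, rfl⟩ | ⟨x, v, c, hv, -, hx, rfl⟩)
  · exact Or.inl ⟨y, hy, rfl⟩
  · right
    simp only [Set.mem_iUnion]
    exact ⟨v, hv, (x, c), ⟨hx, Set.mem_univ _⟩, rfl⟩

/-- the local maps -/
def Rel (el : ι → H) (ρ : H →* Equiv.Perm Ω) (U : Set (Ω ⊕ (H × (List ι × Bool)))) (a : ι) (x y : U) :
    Prop := act ρ (el a) x.1 = y.1

lemma act_inj (ρ : H →* Equiv.Perm Ω) (h : H) :
    Function.Injective (act (ι := ι) ρ h) := by
  intro x y hxy
  have : act ρ h⁻¹ (act ρ h x) = act ρ h⁻¹ (act ρ h y) := by rw [hxy]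
  rwa [← act_mul, ← act_mul, inv_mul_cancel, act_one, act_one] at this

lemma rel_fun (el : ι → H) (ρ : H →* Equiv.Perm Ω) (U : Set (Ω ⊕ (H × (List ι × Bool)))) :
    ∀ a x y y', Rel el ρ U a x y → Rel el ρ U a x y' → y = y' := by
  intro a x y y' h h'
  exact Subtype.ext (h.symm.trans h')

lemma rel_inj (el : ι → H) (ρ : H →* Equiv.Perm Ω) (U : Set (Ω ⊕ (H × (List ι × Bool)))) :
    ∀ a x x' y, Rel el ρ U a x y → Rel el ρ U a x' y → x = x' := by
  intro a x x' y h h'
  exact Subtype.ext (act_inj ρ _ (h.trans h'.symm))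

lemma comp_iff (el : ι → H) (ρ : H →* Equiv.Perm Ω) (U : Set (Ω ⊕ (H × (List ι × Bool)))) (x : U) :
    ∀ (l : List ι) (y : U), comp (Rel el ρ U) l x y ↔
      (∀ t, t <:+ l → act ρ (pr el t) x.1 ∈ U) ∧ act ρ (pr el l) x.1 = y.1
  | [], y => by
    constructor
    · intro h
      have h' : x = y := h
      subst h'
      refine ⟨fun t ht => ?_, by simp [act_one]⟩
      rw [List.suffix_nil.mp ht, pr_nil, act_one]
      exact x.2
    · rintro ⟨-, h⟩
      rw [pr_nil, act_one] at h
      exact Subtype.ext h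
  | a :: l, y => by
    constructor
    · rintro ⟨w, hw, hr⟩
      rw [comp_iff el ρ U x l w] at hw
      have h1 : act ρ (pr el (a :: l)) x.1 = y.1 := by
        rw [pr_cons, act_mul, hw.2]
        exact hr
      refine ⟨fun t ht => ?_, h1⟩
      rcases List.suffix_cons_iff.mp ht with rfl | ht
      · rw [h1]; exact y.2
      · exact hw.1 t ht
    · rintro ⟨h1, h2⟩
      refine ⟨⟨act ρ (pr el l) x.1, h1 l (List.suffix_cons a l)⟩, ?_, ?_⟩
      · rw [comp_iff el ρ U x l]
        exact ⟨fun t ht => h1 t (ht.trans (List.suffix_cons a l)), rfl⟩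
      · show act ρ (el a) (act ρ (pr el l) x.1) = y.1
        rw [← act_mul, ← pr_cons]
        exact h2

/-- every word of length `m` whose walk contains a translate of the walk of a word in `W` has a surviving point
in `Γ` -/
lemma survive {el : ι → H} {ρ : H →* Equiv.Perm Ω} {Γ Dp : Set Ω} {W : Set (List ι)} {n m : ℕ} (hnm : n ≤ m)
    (hlen : ∀ w ∈ W, w.length = n)
    (hinj : ∀ w ∈ W, ∀ t t', t <:+ w → t' <:+ w → pr el t = pr el t' → t = t')
    (hbase : ∀ w ∈ W, ∃ y, ∀ t, t <:+ w → ρ (pr el t) y ∈ Dp)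
    (hdeep : ∀ y ∈ Dp, ∀ c : List ι, c.length ≤ m - n → ρ (pr el c) y ∈ Γ ∧ ρ (pr el c)⁻¹ y ∈ Γ)
    (u : List ι) (hu : u.length = m) (hf : ¬ Free el W u) : ∃ y, ∀ t, t <:+ u → ρ (pr el t) y ∈ Γ := by
  classical
  unfold Free at hf
  push Not at hf
  obtain ⟨w, hw, x, hx⟩ := hf
  obtain ⟨y₀, hy₀⟩ := hbase w hw
  have hwl := hlen w hw
  -- the suffixes of w
  have hs : ∀ j, w.drop (n - j) <:+ w := fun j => List.drop_suffix _ _
  have hsl : ∀ j, j ≤ n → (w.drop (n - j)).length = j := fun j hj => by
    rw [List.length_drop, hwl]; omega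
  have hch : ∀ j, ∃ t, t <:+ u ∧ pr el t = pr el (w.drop (n - j)) * x := fun j => hx _ (hs j)
  choose T hT1 hT2 using hch
  have hTinj : ∀ i j, i ≤ n → j ≤ n → (T i).length = (T j).length → i = j := by
    intro i j hi hj hij
    have h1 : T i = T j := by
      have h2 := List.suffix_of_suffix_length_le (hT1 i) (hT1 j) hij.le
      exact h2.eq_of_length hij
    have h3 : pr el (w.drop (n - i)) * x = pr el (w.drop (n - j)) * x := by
      rw [← hT2 i, ← hT2 j, h1]
    have h4 := hinj w hw _ _ (hs i) (hs j) (mul_right_cancel h3)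
    rw [← hsl i hi, ← hsl j hj, h4]
  -- every time is close to one of the times of the copy of the walk of w
  have hclose : ∀ i, i ≤ m → ∃ j, j ≤ n ∧ (T j).length ≤ i + (m - n) ∧ i ≤ (T j).length + (m - n) := by
    intro i hi
    by_contra hcon
    push Not at hcon
    let I : Finset ℕ := (Finset.range (n + 1)).image fun j => (T j).length
    let J : Finset ℕ := Finset.Icc (min i n) (min i n + (m - n))
    have hI : I.card = n + 1 := by
      rw [Finset.card_image_of_injOn, Finset.card_range]
      intro a ha b hb hab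
      simp only [Finset.coe_range, Set.mem_Iio] at ha hb
      exact hTinj a b (by omega) (by omega) hab
    have hJ : J.card = m - n + 1 := by
      simp only [J, Nat.card_Icc]; omega
    have hdis : Disjoint I J := by
      rw [Finset.disjoint_left]
      intro a ha hb
      simp only [I, Finset.mem_image, Finset.mem_range] at ha
      obtain ⟨j, hj, rfl⟩ := ha
      simp only [J, Finset.mem_Icc] at hb
      have := hcon j (by omega) (by omega)
      omega
    have hsub : I ∪ J ⊆ Finset.range (m + 1) := by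
      intro a ha
      rw [Finset.mem_union] at ha
      rw [Finset.mem_range]
      rcases ha with ha | ha
      · simp only [I, Finset.mem_image, Finset.mem_range] at ha
        obtain ⟨j, hj, rfl⟩ := ha
        have := (hT1 j).length_le
        omega
      · simp only [J, Finset.mem_Icc] at ha
        omega
    have h5 := Finset.card_le_card hsub
    rw [Finset.card_union_of_disjoint hdis, hI, hJ, Finset.card_range] at h5
    omega
  refine ⟨ρ x⁻¹ y₀, fun t ht => ?_⟩
  obtain ⟨j, hj, h1, h2⟩ := hclose t.length (hu ▸ ht.length_le)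
  have hd := hy₀ _ (hs j)
  by_cases hle : (T j).length ≤ t.length
  · obtain ⟨c, hc⟩ := List.suffix_of_suffix_length_le (hT1 j) ht hle
    have hcl : c.length ≤ m - n := by
      rw [← hc, List.length_append] at h2
      omega
    have := (hdeep _ hd c hcl).1
    rw [← hc, pr_append, hT2 j]
    have e1 : ρ (pr el c * (pr el (w.drop (n - j)) * x)) (ρ x⁻¹ y₀) =
        ρ (pr el c) (ρ (pr el (w.drop (n - j))) y₀) := by
      rw [← Equiv.Perm.mul_apply, ← map_mul, ← Equiv.Perm.mul_apply, ← map_mul]
      congr 2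
      group
    rw [e1]
    exact this
  · obtain ⟨c, hc⟩ := List.suffix_of_suffix_length_le ht (hT1 j) (by omega)
    have hcl : c.length ≤ m - n := by
      rw [← hc, List.length_append] at h1
      omega
    have := (hdeep _ hd c hcl).2
    have h3 : pr el t = (pr el c)⁻¹ * (pr el (w.drop (n - j)) * x) := by
      rw [← hT2 j, ← hc, pr_append]
      group
    rw [h3]
    have e1 : ρ ((pr el c)⁻¹ * (pr el (w.drop (n - j)) * x)) (ρ x⁻¹ y₀) =
        ρ (pr el c)⁻¹ (ρ (pr el (w.drop (n - j))) y₀) := by
      rw [← Equiv.Perm.mul_apply, ← map_mul, ← Equiv.Perm.mul_apply, ← map_mul]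
      congr 2
      group
    rw [e1]
    exact this

end Pool.Agent.R819.BG
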