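import Mathlib
import Pool.Agent.R819.BG.Walk
import Pool.Agent.R819.BG.Grow

/-!
# Growth estimates for the groups attached to local actions
-/

set_option autoImplicit false

namespace Pool.Agent.R819.BG

open Pointwise Nat

variable {H ι Ω : Type} [Group H]

/-- the data of the construction -/
structure Data (el : ι → H) (ρ : H →* Equiv.Perm Ω) (n m : ℕ) (Γ D : Finset Ω) (w : Ω → Ω → List ι) : Prop where
  hn : 1 ≤ n
  hnm : n ≤ m
  len : ∀ z ∈ D, ∀ z' ∈ D, (w z z').length = n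
  inj : ∀ z ∈ D, ∀ z' ∈ D, ∀ t t', t <:+ w z z' → t' <:+ w z z' → pr el t = pr el t' → t = t'
  base : ∀ z ∈ D, ∀ z' ∈ D, ∀ t, t <:+ w z z' → ρ (pr el t) z ∈ D
  fin : ∀ z ∈ D, ∀ z' ∈ D, ρ (pr el (w z z')) z = z'
  uniq : ∀ z ∈ D, ∀ z' ∈ D, ∀ y ∈ Γ, (∀ t, t <:+ w z z' → ρ (pr el t) y ∈ Γ) → y = z
  deep : ∀ y ∈ D, ∀ c : List ι, c.length ≤ m - n → ρ (pr el c) y ∈ Γ ∧ ρ (pr el c)⁻¹ y ∈ Γ
  kill : ∃ z ∈ D, ∃ c : List ι, c.length = 2 * n ∧ ∃ t, t <:+ c ∧ ρ (pr el t) z ∉ Γ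

namespace Data

variable {el : ι → H} {ρ : H →* Equiv.Perm Ω} {n m : ℕ} {Γ D : Finset Ω} {w : Ω → Ω → List ι}

/-- the set of the special words -/
def W (D : Finset Ω) (w : Ω → Ω → List ι) : Set (List ι) := {l | ∃ z ∈ D, ∃ z' ∈ D, l = w z z'}

/-- the finite set -/
abbrev U (el : ι → H) (m : ℕ) (Γ D : Finset Ω) (w : Ω → Ω → List ι) : Set (Ω ⊕ (H × (List ι × Bool))) :=
  Us el (Γ : Set Ω) (W D w) m

lemma sub (h : Data el ρ n m Γ D w) : D ⊆ Γ := by
  intro y hy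
  have := (h.deep y hy [] (Nat.zero_le _)).1
  simpa using this

lemma mem_inl {y : Ω} : (Sum.inl y : Ω ⊕ (H × (List ι × Bool))) ∈ U el m Γ D w ↔ y ∈ Γ := by
  constructor
  · rintro (⟨y', hy', he⟩ | ⟨x, v, c, -, -, -, he⟩)
    · rw [Sum.inl_injective he]; exact hy'
    · exact absurd he (by simp)
  · intro hy
    exact Or.inl ⟨y, hy, rfl⟩

lemma mem_inr {x : H} {v : List ι} {c : Bool} :
    (Sum.inr (x, (v, c)) : Ω ⊕ (H × (List ι × Bool))) ∈ U el m Γ D w ↔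
      v.length = m ∧ Free el (W D w) v ∧ x ∈ tr el v := by
  constructor
  · rintro (⟨y', hy', he⟩ | ⟨x', v', c', h1, h2, h3, he⟩)
    · exact absurd he (by simp)
    · have := Sum.inr_injective he
      simp only [Prod.mk.injEq] at this
      obtain ⟨rfl, rfl, rfl⟩ := this
      exact ⟨h1, h2, h3⟩
  · rintro ⟨h1, h2, h3⟩
    exact Or.inr ⟨x, v, c, h1, h2, h3, rfl⟩

lemma hA (h : Data el ρ n m Γ D w) (l : List ι) (hl : l.length = m) :
    (∃ x x' y y', x ≠ x' ∧ comp (Rel el ρ (U el m Γ D w)) l x y ∧ comp (Rel el ρ (U el m Γ D w)) l x' y') ∨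
      ∃ x y, (∃ a ∈ Γ, (x : U el m Γ D w).1 = Sum.inl a) ∧ (∃ b ∈ Γ, (y : U el m Γ D w).1 = Sum.inl b) ∧
        comp (Rel el ρ (U el m Γ D w)) l x y := by
  by_cases hf : Free el (W D w) l
  · left
    have h1 : ∀ (c : Bool) (t : List ι), t <:+ l →
        (Sum.inr (pr el t, (l, c)) : Ω ⊕ (H × (List ι × Bool))) ∈ U el m Γ D w :=
      fun c t ht => mem_inr.mpr ⟨hl, hf, t, ht, rfl⟩
    have h2 : ∀ c : Bool, comp (Rel el ρ (U el m Γ D w)) l
        ⟨Sum.inr (pr el [], (l, c)), h1 c [] (List.nil_suffix)⟩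
        ⟨Sum.inr (pr el l, (l, c)), h1 c l List.suffix_rfl⟩ := by
      intro c
      rw [comp_iff]
      refine ⟨fun t ht => ?_, by simp [act]⟩
      have : act ρ (pr el t) (Sum.inr (pr el [], (l, c))) = Sum.inr (pr el t, (l, c)) := by
        simp [act]
      rw [this]
      exact h1 c t ht
    refine ⟨_, _, _, _, ?_, h2 false, h2 true⟩
    intro he
    have := congrArg Subtype.val he
    simp at this
  · right
    obtain ⟨y, hy⟩ := survive (Γ := (Γ : Set Ω)) (Dp := (D : Set Ω)) (W := W D w) (ρ := ρ) h.hnm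
      (by rintro l ⟨z, hz, z', hz', rfl⟩; exact h.len z hz z' hz')
      (by rintro l ⟨z, hz, z', hz', rfl⟩; exact h.inj z hz z' hz')
      (by rintro l ⟨z, hz, z', hz', rfl⟩; exact ⟨z, h.base z hz z' hz'⟩)
      h.deep l hl hf
    have h0 : y ∈ Γ := by
      have := hy [] List.nil_suffix
      simpa using this
    refine ⟨⟨Sum.inl y, mem_inl.mpr h0⟩, ⟨Sum.inl (ρ (pr el l) y), mem_inl.mpr (hy l List.suffix_rfl)⟩,
      ⟨y, h0, rfl⟩, ⟨_, hy l List.suffix_rfl, rfl⟩, ?_⟩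
    rw [comp_iff]
    exact ⟨fun t ht => mem_inl.mpr (hy t ht), rfl⟩

lemma start (h : Data el ρ n m Γ D w) {z z' : Ω} (hz : z ∈ D) (hz' : z' ∈ D) (x : U el m Γ D w)
    (hx : ∀ t, t <:+ w z z' → act ρ (pr el t) x.1 ∈ U el m Γ D w) : x.1 = Sum.inl z := by
  obtain ⟨x, hxU⟩ := x
  rcases x with y | ⟨x, v, c⟩
  · have := h.uniq z hz z' hz' y (mem_inl.mp hxU) (fun t ht => mem_inl.mp (hx t ht))
    exact congrArg Sum.inl this
  · exfalso
    have hF := (mem_inr.mp hxU).2.1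
    apply hF (w z z') ⟨z, hz, z', hz', rfl⟩ x
    intro t ht
    exact (mem_inr.mp (hx t ht)).2.2

lemma hB (h : Data el ρ n m Γ D w) {z z' : Ω} (hz : z ∈ D) (hz' : z' ∈ D) (x y : U el m Γ D w) :
    comp (Rel el ρ (U el m Γ D w)) (w z z') x y ↔ x.1 = Sum.inl z ∧ y.1 = Sum.inl z' := by
  rw [comp_iff]
  constructor
  · rintro ⟨h1, h2⟩
    have h3 := h.start hz hz' x h1
    refine ⟨h3, ?_⟩
    rw [← h2, h3]
    show Sum.inl (ρ (pr el (w z z')) z) = Sum.inl z'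
    rw [h.fin z hz z' hz']
  · rintro ⟨h1, h2⟩
    rw [h1, h2]
    refine ⟨fun t ht => mem_inl.mpr (h.sub (h.base z hz z' hz' t ht)), ?_⟩
    show Sum.inl (ρ (pr el (w z z')) z) = Sum.inl z'
    rw [h.fin z hz z' hz']

lemma hC (h : Data el ρ n m Γ D w) : ∃ l : List ι, l.length = 3 * n ∧
    ∀ x y, ¬ comp (Rel el ρ (U el m Γ D w)) l x y := by
  obtain ⟨z, hz, c, hc, t, ht, htn⟩ := h.kill
  refine ⟨c ++ w z z, ?_, ?_⟩
  · rw [List.length_append, hc, h.len z hz z hz]; ring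
  · intro x y hxy
    rw [comp_iff] at hxy
    have h1 := h.start hz hz x (fun s hs => hxy.1 s (hs.trans (List.suffix_append _ _)))
    have h2 : t ++ w z z <:+ c ++ w z z := by
      obtain ⟨r, hr⟩ := ht
      exact ⟨r, by rw [← hr, List.append_assoc]⟩
    have h3 := hxy.1 _ h2
    rw [h1, pr_append, act_mul] at h3
    have h4 : act ρ (pr el (w z z)) (Sum.inl z : Ω ⊕ (H × (List ι × Bool))) = Sum.inl z := by
      show Sum.inl (ρ (pr el (w z z)) z) = Sum.inl z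
      rw [h.fin z hz z hz]
    rw [h4] at h3
    exact htn (mem_inl.mp h3)

/-- the growth estimates -/
theorem growth [Finite ι] (h : Data el ρ n m Γ D w) {Y : Type} [Finite Y] [Finite (U el m Γ D w)]
    (e : U el m Γ D w ↪ Y) :
    ((gen (Rel el ρ (U el m Γ D w)) Y) ^ m).ncard ≤ Γ.card ^ 2 * (Nat.card (U el m Γ D w ⊕ Y) - 1)! +
      (Nat.card (U el m Γ D w)) ^ 4 * (Nat.card (U el m Γ D w ⊕ Y) - 2)! ∧
    D.card ^ 2 * (Nat.card (U el m Γ D w ⊕ Y) - 1)! ≤ ((gen (Rel el ρ (U el m Γ D w)) Y) ^ n).ncard +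
      D.card ^ 2 * ((Nat.card (U el m Γ D w)) ^ 2 * (Nat.card (U el m Γ D w ⊕ Y) - 2)!) ∧
    (Nat.card (U el m Γ D w ⊕ Y))! ≤ ((gen (Rel el ρ (U el m Γ D w)) Y) ^ (3 * n)).ncard +
      (Nat.card (U el m Γ D w)) ^ 2 * (Nat.card (U el m Γ D w ⊕ Y) - 1)! := by
  classical
  refine ⟨?_, ?_, ?_⟩
  · let G' : Finset (U el m Γ D w) := Γ.attach.image fun a => ⟨Sum.inl a.1, mem_inl.mpr a.2⟩
    have hG' : G'.card ≤ Γ.card := by
      refine Finset.card_image_le.trans ?_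
      rw [Finset.card_attach]
    have h1 := card_up (Y := Y) (R := Rel el ρ (U el m Γ D w)) (m := m) G' (by
      intro l hl
      rcases h.hA l hl with h1 | ⟨x, y, ⟨a, ha, hxa⟩, ⟨b, hb, hyb⟩, hc⟩
      · exact Or.inl h1
      · right
        refine ⟨x, ?_, y, ?_, hc⟩
        · exact Finset.mem_image.mpr ⟨⟨a, ha⟩, Finset.mem_attach _ _, Subtype.ext hxa.symm⟩
        · exact Finset.mem_image.mpr ⟨⟨b, hb⟩, Finset.mem_attach _ _, Subtype.ext hyb.symm⟩)
    refine h1.trans ?_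
    gcongr
  · let f : {x // x ∈ D} × {x // x ∈ D} → (U el m Γ D w) × (U el m Γ D w) := fun p =>
      (⟨Sum.inl p.1.1, mem_inl.mpr (h.sub p.1.2)⟩, ⟨Sum.inl p.2.1, mem_inl.mpr (h.sub p.2.2)⟩)
    have hf : Function.Injective f := by
      rintro ⟨a, b⟩ ⟨a', b'⟩ hab
      simp only [f, Prod.mk.injEq, Subtype.mk.injEq, Sum.inl.injEq] at hab
      exact Prod.ext (Subtype.ext hab.1) (Subtype.ext hab.2)
    have hD : ((D.attach ×ˢ D.attach).image f).card = D.card ^ 2 := by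
      rw [Finset.card_image_of_injective _ hf, Finset.card_product, Finset.card_attach, sq]
    have h1 := card_lo (Y := Y) (rel_fun el ρ (U el m Γ D w)) (rel_inj el ρ (U el m Γ D w)) e h.hn
      ((D.attach ×ˢ D.attach).image f) (by
        intro p hp
        rw [Finset.mem_image] at hp
        obtain ⟨⟨⟨a, ha⟩, ⟨b, hb⟩⟩, -, rfl⟩ := hp
        refine ⟨w a b, h.len a ha b hb, fun x y => ?_⟩
        rw [h.hB ha hb x y]
        constructor
        · rintro ⟨h1, h2⟩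
          exact ⟨Subtype.ext h1, Subtype.ext h2⟩
        · rintro ⟨h1, h2⟩
          exact ⟨congrArg Subtype.val h1, congrArg Subtype.val h2⟩)
    rw [hD] at h1
    exact h1
  · exact card_lo3 (rel_fun el ρ (U el m Γ D w)) (rel_inj el ρ (U el m Γ D w)) e
      (by have := h.hn; omega) h.hC

end Data

end Pool.Agent.R819.BG
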