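import Mathlib
import Pool.Agent.R819.BG.Abs

/-!
# The concrete local actions

The group is `Perm ℤ × ℤ`, acting on `ℤ`; the generators are the shifts by at most `d` and the permutations `tau z d`
which fix `z` and move all other points to the right.
-/

set_option autoImplicit false

namespace Pool.Agent.R819.BG

/-- the shift -/
def sh (c : ℤ) : Equiv.Perm ℤ := Equiv.addRight c

@[simp] lemma sh_apply (c y : ℤ) : sh c y = y + c := rfl

lemma sh_inv (c : ℤ) : (sh c)⁻¹ = sh (-c) := by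
  ext y
  show (Equiv.addRight c).symm y = y + -c
  simp

/-- the permutation which fixes `p` and shifts the other points to the right by `d` or `d + 1` -/
def tau (d : ℕ) (p : ℤ) : Equiv.Perm ℤ where
  toFun y := if y = p then p else if y < p ∧ p ≤ y + d then y + d + 1 else y + d
  invFun y := if y = p then p else if p < y ∧ y - d ≤ p then y - d - 1 else y - d
  left_inv y := by dsimp only; split_ifs <;> omega
  right_inv y := by dsimp only; split_ifs <;> omega

lemma tau_self (d : ℕ) (p : ℤ) : tau d p p = p := by simp [tau]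

lemma tau_ne (d : ℕ) (p y : ℤ) (h : y ≠ p) : tau d p y ≠ p ∧ y + d ≤ tau d p y ∧ tau d p y ≤ y + d + 1 := by
  simp only [tau, Equiv.coe_fn_mk]
  split_ifs <;> omega

lemma tau_dist (d : ℕ) (p y : ℤ) : |tau d p y - y| ≤ (d : ℤ) + 1 := by
  by_cases h : y = p
  · rw [h, tau_self]; simp; omega
  · have := tau_ne d p y h
    rw [abs_le]; omega

/-- the group -/
abbrev HH : Type := Equiv.Perm ℤ × Multiplicative ℤ

/-- the generators -/
def Ls (d : ℕ) (P : Finset ℤ) : Set HH :=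
  {h | ((∃ c : ℤ, |c| ≤ d ∧ h.1 = sh c) ∨ (∃ p ∈ P, h.1 = tau d p) ∨ (∃ p ∈ P, h.1 = (tau d p)⁻¹)) ∧
    (h.2 = Multiplicative.ofAdd (-1) ∨ h.2 = 1 ∨ h.2 = Multiplicative.ofAdd 1)}

lemma ls_finite (d : ℕ) (P : Finset ℤ) : (Ls d P).Finite := by
  have h1 : (((Set.Icc (-(d : ℤ)) d).image sh ∪ ((P : Set ℤ).image (tau d) ∪
      (P : Set ℤ).image fun p => (tau d p)⁻¹)) ×ˢ
      ({Multiplicative.ofAdd (-1), 1, Multiplicative.ofAdd 1} : Set (Multiplicative ℤ))).Finite := by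
    refine Set.Finite.prod ?_ (by simp)
    exact ((Set.finite_Icc _ _).image _).union ((P.finite_toSet.image _).union (P.finite_toSet.image _))
  refine h1.subset ?_
  rintro ⟨g, c⟩ ⟨h2, h3⟩
  refine ⟨?_, ?_⟩
  · rcases h2 with ⟨c, hc, rfl⟩ | ⟨p, hp, rfl⟩ | ⟨p, hp, rfl⟩
    · exact Or.inl ⟨c, abs_le.mp hc, rfl⟩
    · exact Or.inr (Or.inl ⟨p, hp, rfl⟩)
    · exact Or.inr (Or.inr ⟨p, hp, rfl⟩)
  · simpa using h3

lemma ls_inv (d : ℕ) (P : Finset ℤ) (h : HH) (hh : h ∈ Ls d P) : h⁻¹ ∈ Ls d P := by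
  obtain ⟨h1, h2⟩ := hh
  refine ⟨?_, ?_⟩
  · rcases h1 with ⟨c, hc, h1⟩ | ⟨p, hp, h1⟩ | ⟨p, hp, h1⟩
    · left
      refine ⟨-c, by rwa [abs_neg], ?_⟩
      rw [Prod.fst_inv, h1, sh_inv]
    · right; right
      exact ⟨p, hp, by rw [Prod.fst_inv, h1]⟩
    · right; left
      exact ⟨p, hp, by rw [Prod.fst_inv, h1, inv_inv]⟩
  · rcases h2 with h2 | h2 | h2
    · right; right; rw [Prod.snd_inv, h2]; rfl
    · right; left; rw [Prod.snd_inv, h2, inv_one]
    · left; rw [Prod.snd_inv, h2]; rfl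

/-- the action -/
def rh : HH →* Equiv.Perm ℤ := MonoidHom.fst _ _

lemma letter_dist (d : ℕ) (P : Finset ℤ) (a : Ls d P) (y : ℤ) : |rh a.1 y - y| ≤ (d : ℤ) + 1 := by
  obtain ⟨⟨g, c⟩, h1, h2⟩ := a
  show |g y - y| ≤ (d : ℤ) + 1
  rcases h1 with ⟨c, hc, h1⟩ | ⟨p, hp, h1⟩ | ⟨p, hp, h1⟩
  · simp only at h1
    rw [h1, sh_apply, add_sub_cancel_left]
    omega
  · simp only at h1
    rw [h1]
    exact tau_dist d p y
  · simp only at h1
    rw [h1]
    have := tau_dist d p ((tau d p)⁻¹ y)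
    have e1 : tau d p ((tau d p)⁻¹ y) = y := (tau d p).apply_symm_apply y
    rw [e1, abs_sub_comm] at this
    exact this

lemma word_dist (d : ℕ) (P : Finset ℤ) : ∀ (c : List (Ls d P)) (y : ℤ),
    |rh (pr Subtype.val c) y - y| ≤ ((d : ℤ) + 1) * c.length
  | [], y => by simp
  | a :: c, y => by
    rw [pr_cons, map_mul, Equiv.Perm.mul_apply, List.length_cons]
    have h1 := word_dist d P c y
    have h2 := letter_dist d P a (rh (pr Subtype.val c) y)
    have h3 := abs_sub_le (rh a.1 (rh (pr Subtype.val c) y)) (rh (pr Subtype.val c) y) y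
    push_cast
    linarith

lemma word_dist_inv (d : ℕ) (P : Finset ℤ) (c : List (Ls d P)) (y : ℤ) :
    |rh (pr Subtype.val c)⁻¹ y - y| ≤ ((d : ℤ) + 1) * c.length := by
  have h1 := word_dist d P c (rh (pr Subtype.val c)⁻¹ y)
  have h2 : rh (pr Subtype.val c) (rh (pr Subtype.val c)⁻¹ y) = y := by
    rw [← Equiv.Perm.mul_apply, ← map_mul, mul_inv_cancel, map_one]; rfl
  rw [h2, abs_sub_comm] at h1
  exact h1

lemma suffix_repl {α : Type} (X Y : α) (b : ℕ) : ∀ (a : ℕ) (t : List α),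
    t <:+ List.replicate a X ++ List.replicate b Y →
    ∃ i j, i ≤ a ∧ j ≤ b ∧ t = List.replicate i X ++ List.replicate j Y
  | 0, t, h => by
    rw [List.replicate_zero, List.nil_append, List.suffix_replicate_iff] at h
    exact ⟨0, t.length, le_rfl, h.1, by simpa using h.2⟩
  | a + 1, t, h => by
    rw [List.replicate_succ, List.cons_append, List.suffix_cons_iff] at h
    rcases h with rfl | h
    · exact ⟨a + 1, b, le_rfl, le_rfl, by rw [List.replicate_succ, List.cons_append]⟩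
    · obtain ⟨i, j, hi, hj, rfl⟩ := suffix_repl X Y b a t h
      exact ⟨i, j, by omega, hj, rfl⟩

lemma pr_replicate {H ι : Type} [Group H] (el : ι → H) (a : ι) (i : ℕ) :
    pr el (List.replicate i a) = el a ^ i := by
  simp [pr]

lemma sh_pow (c y : ℤ) : ∀ i : ℕ, (sh c ^ i) y = y + i * c
  | 0 => by simp
  | i + 1 => by
    rw [pow_succ', Equiv.Perm.mul_apply, sh_pow c y i, sh_apply]
    push_cast; ring

lemma tau_pow_self (d : ℕ) (p : ℤ) : ∀ i : ℕ, (tau d p ^ i) p = p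
  | 0 => by simp
  | i + 1 => by
    rw [pow_succ', Equiv.Perm.mul_apply, tau_pow_self d p i, tau_self]

lemma tau_pow_ne (d : ℕ) (p y : ℤ) (h : y ≠ p) : ∀ i : ℕ, (tau d p ^ i) y ≠ p ∧ y + i * d ≤ (tau d p ^ i) y
  | 0 => by simpa using h
  | i + 1 => by
    obtain ⟨h1, h2⟩ := tau_pow_ne d p y h i
    have h3 := tau_ne d p _ h1
    rw [pow_succ', Equiv.Perm.mul_apply]
    refine ⟨h3.1, ?_⟩
    have e1 : ((i + 1 : ℕ) : ℤ) * d = i * d + d := by push_cast; ring
    rw [e1]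
    linarith [h3.2.1]

/-- the letter which shifts by the sign of `c` -/
def lx (d : ℕ) (hd : 1 ≤ d) (P : Finset ℤ) (c : ℤ) : Ls d P :=
  ⟨(sh (Int.sign c), Multiplicative.ofAdd 1), Or.inl ⟨Int.sign c, by
    rcases lt_trichotomy c 0 with h | h | h
    · rw [Int.sign_eq_neg_one_of_neg h]; simp; omega
    · rw [h]; simp
    · rw [Int.sign_eq_one_of_pos h]; simp; omega, rfl⟩, Or.inr (Or.inr rfl)⟩

open Classical in
/-- the letter which fixes `z` -/
noncomputable def ly (d : ℕ) (P : Finset ℤ) (z : ℤ) : Ls d P :=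
  if h : z ∈ P then ⟨(tau d z, Multiplicative.ofAdd 1), Or.inr (Or.inl ⟨z, h, rfl⟩), Or.inr (Or.inr rfl)⟩
  else ⟨(sh 0, Multiplicative.ofAdd 1), Or.inl ⟨0, by simp, rfl⟩, Or.inr (Or.inr rfl)⟩

lemma ly_of_mem (d : ℕ) (P : Finset ℤ) (z : ℤ) (h : z ∈ P) :
    (ly d P z).1 = (tau d z, Multiplicative.ofAdd 1) := by
  unfold ly
  rw [dif_pos h]

/-- the special words -/
noncomputable def ww (d : ℕ) (hd : 1 ≤ d) (P : Finset ℤ) (n : ℕ) (z z' : ℤ) : List (Ls d P) :=
  List.replicate (z' - z).natAbs (lx d hd P (z' - z)) ++ List.replicate (n - (z' - z).natAbs) (ly d P z)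

lemma pr_word (d : ℕ) (hd : 1 ≤ d) (P : Finset ℤ) (z : ℤ) (hz : z ∈ P) (c : ℤ) (i j : ℕ) :
    pr Subtype.val (List.replicate i (lx d hd P c) ++ List.replicate j (ly d P z)) =
      (sh (Int.sign c) ^ i * tau d z ^ j, Multiplicative.ofAdd ((i : ℤ) + j)) := by
  rw [pr_append, pr_replicate, pr_replicate, ly_of_mem d P z hz]
  have h1 : (lx d hd P c).1 = (sh (Int.sign c), Multiplicative.ofAdd 1) := rfl
  rw [h1, Prod.pow_mk, Prod.pow_mk, Prod.mk_mul_mk, ← ofAdd_nsmul, ← ofAdd_nsmul, ← ofAdd_add]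
  simp

/-- the data of the construction -/
theorem data (d t : ℕ) (hd : 1 ≤ d) (ht : 1 ≤ t) :
    Data (H := HH) (ι := Ls d (Finset.Ico ((d : ℤ) ^ 2 * (d * (d + 1) * t)) (((d : ℤ) ^ 2 + 1) * (d * (d + 1) * t))))
      Subtype.val rh ((d + 1) * (2 * d ^ 2 + 1 + d) * t) ((d + 1) * (2 * d ^ 2 + 1 + d) * t + d ^ 3 * t)
      (Finset.Ico 0 ((2 * (d : ℤ) ^ 2 + 1) * (d * (d + 1) * t)))
      (Finset.Ico ((d : ℤ) ^ 2 * (d * (d + 1) * t)) (((d : ℤ) ^ 2 + 1) * (d * (d + 1) * t)))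
      (ww d hd (Finset.Ico ((d : ℤ) ^ 2 * (d * (d + 1) * t)) (((d : ℤ) ^ 2 + 1) * (d * (d + 1) * t)))
        ((d + 1) * (2 * d ^ 2 + 1 + d) * t)) := by
  set s : ℕ := d * (d + 1) * t with hs
  have hs1 : 1 ≤ s := by
    rw [hs]; exact Nat.one_le_iff_ne_zero.mpr (by positivity)
  have hsz : ((d : ℤ) * (d + 1) * t) = (s : ℤ) := by rw [hs]; push_cast; ring
  rw [hsz]
  set N : ℕ := (2 * d ^ 2 + 1) * (d + 1) * t with hN
  have hn : (d + 1) * (2 * d ^ 2 + 1 + d) * t = N + s := by rw [hN, hs]; ring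
  rw [hn]
  have hNd : (N : ℤ) * d = (2 * (d : ℤ) ^ 2 + 1) * s := by rw [hN, hs]; push_cast; ring
  set P : Finset ℤ := Finset.Ico ((d : ℤ) ^ 2 * s) (((d : ℤ) ^ 2 + 1) * s) with hP
  have hs0 : (0 : ℤ) ≤ s := by positivity
  have hab : ∀ z ∈ P, ∀ z' ∈ P, (z' - z).natAbs < s := by
    intro z hz z' hz'
    rw [hP, Finset.mem_Ico] at hz hz'
    have h1 : ((d : ℤ) ^ 2 + 1) * s = (d : ℤ) ^ 2 * s + s := by ring
    omega
  have htraj : ∀ z ∈ P, ∀ z' ∈ P, ∀ i : ℕ, i ≤ (z' - z).natAbs → z + i * Int.sign (z' - z) ∈ P := by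
    intro z hz z' hz' i hi
    rw [hP, Finset.mem_Ico] at hz hz' ⊢
    rcases lt_trichotomy (z' - z) 0 with h | h | h
    · rw [Int.sign_eq_neg_one_of_neg h]; omega
    · rw [h]; simpa using hz
    · rw [Int.sign_eq_one_of_pos h]; omega
  refine
    { hn := by omega
      hnm := by omega
      len := ?_
      inj := ?_
      base := ?_
      fin := ?_
      uniq := ?_
      deep := ?_
      kill := ?_ }
  · intro z hz z' hz'
    have := hab z hz z' hz'
    rw [ww, List.length_append, List.length_replicate, List.length_replicate]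
    omega
  · intro z hz z' hz' u u' hu hu' he
    have hl : u.length = u'.length := by
      obtain ⟨i, j, -, -, h1⟩ := suffix_repl _ _ _ _ _ hu
      obtain ⟨i', j', -, -, h2⟩ := suffix_repl _ _ _ _ _ hu'
      rw [h1, h2, pr_word d hd P z hz, pr_word d hd P z hz] at he
      have h3 := congrArg Prod.snd he
      simp only at h3
      have h4 : (i : ℤ) + j = i' + j' := Multiplicative.ofAdd.injective h3
      rw [h1, h2]
      simp only [List.length_append, List.length_replicate]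
      omega
    exact (List.suffix_of_suffix_length_le hu hu' hl.le).eq_of_length hl
  · intro z hz z' hz' u hu
    obtain ⟨i, j, hi, -, h1⟩ := suffix_repl _ _ _ _ _ hu
    rw [h1, pr_word d hd P z hz]
    show (sh (Int.sign (z' - z)) ^ i * tau d z ^ j) z ∈ P
    rw [Equiv.Perm.mul_apply, tau_pow_self, sh_pow]
    exact htraj z hz z' hz' i hi
  · intro z hz z' hz'
    rw [ww, pr_word d hd P z hz]
    show (sh (Int.sign (z' - z)) ^ _ * tau d z ^ _) z = z'
    rw [Equiv.Perm.mul_apply, tau_pow_self, sh_pow, mul_comm, Int.sign_mul_natAbs]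
    ring
  · intro z hz z' hz' y hy h
    by_contra hne
    have h1 : List.replicate N (ly d P z) <:+ ww d hd P (N + s) z z' := by
      have := hab z hz z' hz'
      rw [ww]
      have h2 : N + s - (z' - z).natAbs = (N + s - (z' - z).natAbs - N) + N := by omega
      rw [h2, List.replicate_add, ← List.append_assoc]
      exact List.suffix_append _ _
    have h2 := h _ h1
    rw [pr_replicate, ly_of_mem d P z hz, Prod.pow_mk] at h2
    have h3 : (tau d z ^ N) y ∈ Finset.Ico 0 ((2 * (d : ℤ) ^ 2 + 1) * s) := h2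
    rw [Finset.mem_Ico] at h3 hy
    have h4 := (tau_pow_ne d z y hne N).2
    rw [hNd] at h4
    linarith [h3.2, hy.1]
  · intro y hy c hc
    have hc' : c.length ≤ d ^ 3 * t := by omega
    have h1 := word_dist d P c y
    have h2 := word_dist_inv d P c y
    have h3 : ((d : ℤ) + 1) * c.length ≤ (d : ℤ) ^ 2 * s := by
      have h4 : (c.length : ℤ) ≤ (d : ℤ) ^ 3 * t := by exact_mod_cast hc'
      calc ((d : ℤ) + 1) * c.length ≤ ((d : ℤ) + 1) * ((d : ℤ) ^ 3 * t) := by gcongr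
        _ = (d : ℤ) ^ 2 * s := by rw [hs]; push_cast; ring
    rw [hP, Finset.mem_Ico] at hy
    rw [abs_le] at h1 h2
    rw [Finset.mem_Ico, Finset.mem_Ico]
    have h5 : (2 * (d : ℤ) ^ 2 + 1) * s = ((d : ℤ) ^ 2 + 1) * s + (d : ℤ) ^ 2 * s := by ring
    refine ⟨⟨?_, ?_⟩, ⟨?_, ?_⟩⟩ <;> linarith [h1.1, h1.2, h2.1, h2.2, hy.1, hy.2]
  · refine ⟨(d : ℤ) ^ 2 * s, ?_, List.replicate (2 * (N + s)) ⟨(sh d, 1), Or.inl ⟨d, by simp, rfl⟩, Or.inr (Or.inl rfl)⟩,
      List.length_replicate, _, List.suffix_rfl, ?_⟩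
    · rw [hP, Finset.mem_Ico]
      refine ⟨le_rfl, ?_⟩
      have : (1 : ℤ) ≤ s := by exact_mod_cast hs1
      nlinarith
    · rw [pr_replicate, Prod.pow_mk]
      show ¬ (sh (d : ℤ) ^ (2 * (N + s))) ((d : ℤ) ^ 2 * s) ∈ Finset.Ico 0 ((2 * (d : ℤ) ^ 2 + 1) * s)
      rw [sh_pow, Finset.mem_Ico, ← hNd]
      rintro ⟨-, h⟩
      push_cast at h
      have h1 : (0 : ℤ) ≤ (d : ℤ) ^ 2 * s := by positivity
      have h2 : (0 : ℤ) ≤ (N : ℤ) * d := by positivity
      have h3 : (0 : ℤ) ≤ (s : ℤ) * d := by positivity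
      nlinarith

end Pool.Agent.R819.BG
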