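import Mathlib
import Pool.Agent.R819.BG.Conc

/-!
# Balls in finite groups
-/

set_option autoImplicit false

namespace Pool.Agent.R819.BG

open Pointwise Nat

/-- the final computation -/
lemma arith {am am' an a3 F1 F2 q s κ M C : ℕ} (hs : 1 ≤ s) (hF2 : 1 ≤ F2) (hF1 : F1 = (M + 1) * F2)
    (hM : q ^ 4 + (κ ^ 2 + 1) * s ^ 2 * q ^ 2 + q ^ 2 + C * ((κ * s) ^ 2 + 1) ≤ M)
    (h1 : am ≤ (κ * s) ^ 2 * F1 + q ^ 4 * F2) (h2 : s ^ 2 * F1 ≤ an + s ^ 2 * (q ^ 2 * F2))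
    (h3 : (M + 2) * F1 ≤ a3 + q ^ 2 * F1) (h4 : am' ≤ am) (h5 : an ≤ am) :
    am' ≤ (κ ^ 2 + 1) * an ∧ C * an < a3 := by
  have hF1' : 1 ≤ F1 := by
    rw [hF1]; exact Nat.one_le_iff_ne_zero.mpr (by positivity)
  constructor
  · have e1 : q ^ 4 * F2 + (κ ^ 2 + 1) * (s ^ 2 * (q ^ 2 * F2)) ≤ s ^ 2 * F1 := by
      have e2 : q ^ 4 * F2 + (κ ^ 2 + 1) * (s ^ 2 * (q ^ 2 * F2)) =
          (q ^ 4 + (κ ^ 2 + 1) * s ^ 2 * q ^ 2) * F2 := by ring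
      rw [e2]
      have e3 : (q ^ 4 + (κ ^ 2 + 1) * s ^ 2 * q ^ 2) * F2 ≤ F1 := by
        rw [hF1]
        apply Nat.mul_le_mul_right
        have : 0 ≤ C * ((κ * s) ^ 2 + 1) := Nat.zero_le _
        omega
      have e4 : 1 ≤ s ^ 2 := Nat.one_le_pow _ _ hs
      nlinarith
    have e5 : (κ ^ 2 + 1) * (s ^ 2 * F1) ≤ (κ ^ 2 + 1) * an + (κ ^ 2 + 1) * (s ^ 2 * (q ^ 2 * F2)) := by
      have := Nat.mul_le_mul_left (κ ^ 2 + 1) h2
      linarith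
    have e6 : (κ * s) ^ 2 * F1 + s ^ 2 * F1 = (κ ^ 2 + 1) * (s ^ 2 * F1) := by ring
    linarith
  · have e1 : q ^ 4 * F2 ≤ F1 := by
      rw [hF1]
      apply Nat.mul_le_mul_right
      have : 0 ≤ C * ((κ * s) ^ 2 + 1) := Nat.zero_le _
      have : 0 ≤ (κ ^ 2 + 1) * s ^ 2 * q ^ 2 := Nat.zero_le _
      omega
    have e2 : an ≤ ((κ * s) ^ 2 + 1) * F1 := by linarith
    have e3 : C * an ≤ (C * ((κ * s) ^ 2 + 1)) * F1 := by
      have := Nat.mul_le_mul_left C e2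
      linarith
    have e4 : (q ^ 2 + C * ((κ * s) ^ 2 + 1) + 1) * F1 ≤ (M + 2) * F1 := by
      apply Nat.mul_le_mul_right
      have : 0 ≤ (κ ^ 2 + 1) * s ^ 2 * q ^ 2 := Nat.zero_le _
      omega
    have e5 : (q ^ 2 + C * ((κ * s) ^ 2 + 1) + 1) * F1 = q ^ 2 * F1 + (C * ((κ * s) ^ 2 + 1)) * F1 + F1 := by
      ring
    linarith

lemma gen_inv (d m : ℕ) (P Γ D : Finset ℤ) (w : ℤ → ℤ → List (Ls d P)) (Y : Type) :
    (gen (Rel Subtype.val rh (Data.U (H := HH) (ι := Ls d P) Subtype.val m Γ D w)) Y)⁻¹ =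
      gen (Rel Subtype.val rh (Data.U (H := HH) (ι := Ls d P) Subtype.val m Γ D w)) Y := by
  have h : ∀ g ∈ gen (Rel Subtype.val rh (Data.U (H := HH) (ι := Ls d P) Subtype.val m Γ D w)) Y,
      g⁻¹ ∈ gen (Rel Subtype.val rh (Data.U (H := HH) (ι := Ls d P) Subtype.val m Γ D w)) Y := by
    rintro g ⟨a, ha⟩
    refine ⟨⟨a.1⁻¹, ls_inv d P a.1 a.2⟩, fun x y hxy => ?_⟩
    have h1 : act rh a.1 y.1 = x.1 := by
      have h2 : act rh a.1⁻¹ x.1 = y.1 := hxy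
      rw [← h2, ← act_mul, mul_inv_cancel, act_one]
    have h3 := ha y x h1
    show g.symm (Sum.inl x) = Sum.inl y
    rw [← h3, Equiv.symm_apply_apply]
  ext g
  constructor
  · intro hg
    have := h _ (Set.mem_inv.mp hg)
    rwa [inv_inv] at this
  · intro hg
    exact Set.mem_inv.mpr (h g hg)

lemma gen_one (d m : ℕ) (P Γ D : Finset ℤ) (w : ℤ → ℤ → List (Ls d P)) (Y : Type) :
    (1 : Equiv.Perm (Data.U (H := HH) (ι := Ls d P) Subtype.val m Γ D w ⊕ Y)) ∈ gen (Rel Subtype.val rh (Data.U (H := HH) (ι := Ls d P) Subtype.val m Γ D w)) Y := by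
  refine ⟨⟨(sh 0, 1), Or.inl ⟨0, by simp, rfl⟩, Or.inr (Or.inl rfl)⟩, fun x y hxy => ?_⟩
  have h1 : act (rh) ((sh 0, 1) : HH) x.1 = y.1 := hxy
  have h2 : ((sh 0, 1) : HH) = 1 := by
    have : sh 0 = 1 := by ext y; simp
    rw [this]; rfl
  rw [h2, act_one] at h1
  rw [Subtype.ext h1]
  rfl

theorem fin_param (d t C : ℕ) (hd : 1 ≤ d) (ht : 1 ≤ t) :
    ∃ (G : Type) (_ : Group G) (_ : Finite G) (S : Set G), S⁻¹ = S ∧ (1 : G) ∈ S ∧
      (∀ m', m' ≤ (d + 1) * (2 * d ^ 2 + 1 + d) * t + d ^ 3 * t →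
        (S ^ m').ncard ≤ ((2 * d ^ 2 + 1) ^ 2 + 1) * (S ^ ((d + 1) * (2 * d ^ 2 + 1 + d) * t)).ncard) ∧
      C * (S ^ ((d + 1) * (2 * d ^ 2 + 1 + d) * t)).ncard <
        (S ^ (3 * ((d + 1) * (2 * d ^ 2 + 1 + d) * t))).ncard := by
  classical
  have hdat := data d t hd ht
  set P := (Finset.Ico ((d : ℤ) ^ 2 * (d * (d + 1) * t)) (((d : ℤ) ^ 2 + 1) * (d * (d + 1) * t))) with hP
  set Γ := (Finset.Ico 0 ((2 * (d : ℤ) ^ 2 + 1) * (d * (d + 1) * t))) with hΓ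
  set n := (d + 1) * (2 * d ^ 2 + 1 + d) * t with hn
  set m := n + d ^ 3 * t with hm
  have hfi : Finite (Ls d P) := (ls_finite d P).to_subtype
  have hfU : Finite (Data.U (H := HH) (ι := Ls d P) Subtype.val m Γ P (ww d hd P n)) :=
    (us_finite _ _ (Finset.finite_toSet _) _ _).to_subtype
  set q := Nat.card (Data.U (H := HH) (ι := Ls d P) Subtype.val m Γ P (ww d hd P n)) with hq
  set s := d * (d + 1) * t with hs
  have hs1 : 1 ≤ s := by rw [hs]; exact Nat.one_le_iff_ne_zero.mpr (by positivity)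
  set κ := 2 * d ^ 2 + 1 with hκ
  set N := q ^ 4 + (κ ^ 2 + 1) * s ^ 2 * q ^ 2 + q ^ 2 + C * ((κ * s) ^ 2 + 1) + q + 2 with hN
  have hqN : q ≤ N := by
    have : 0 ≤ q ^ 4 + (κ ^ 2 + 1) * s ^ 2 * q ^ 2 + q ^ 2 + C * ((κ * s) ^ 2 + 1) := Nat.zero_le _
    omega
  let e : Data.U (H := HH) (ι := Ls d P) Subtype.val m Γ P (ww d hd P n) ↪ Fin N :=
    (Finite.equivFin _).toEmbedding.trans (Fin.castLEEmb hqN)
  obtain ⟨g1, g2, g3⟩ := hdat.growth (Y := Fin N) e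
  have hM : Nat.card (Data.U (H := HH) (ι := Ls d P) Subtype.val m Γ P (ww d hd P n) ⊕ Fin N) =
      (N + q - 2) + 2 := by
    rw [Nat.card_sum, Nat.card_fin, ← hq]
    omega
  have hΓc : Γ.card = κ * s := by
    rw [hΓ, Int.card_Ico]
    have : (2 * (d : ℤ) ^ 2 + 1) * (d * (d + 1) * t) - 0 = ((κ * s : ℕ) : ℤ) := by
      rw [hκ, hs]; push_cast; ring
    rw [this, Int.toNat_natCast]
  have hPc : P.card = s := by
    rw [hP, Int.card_Ico]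
    have : ((d : ℤ) ^ 2 + 1) * (d * (d + 1) * t) - (d : ℤ) ^ 2 * (d * (d + 1) * t) = ((s : ℕ) : ℤ) := by
      rw [hs]; push_cast; ring
    rw [this, Int.toNat_natCast]
  rw [hM, hΓc, ← hq] at g1
  rw [hM, hPc, ← hq] at g2
  rw [hM, ← hq] at g3
  have e1 : N + q - 2 + 2 - 1 = N + q - 2 + 1 := by omega
  have e2 : N + q - 2 + 2 - 2 = N + q - 2 := by omega
  rw [e1, e2] at g1 g2
  rw [e1] at g3
  have hfac : (N + q - 2 + 1)! = (N + q - 2 + 1) * (N + q - 2)! := Nat.factorial_succ _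
  have hfac2 : (N + q - 2 + 2)! = (N + q - 2 + 2) * (N + q - 2 + 1)! := Nat.factorial_succ _
  rw [hfac2] at g3
  have hle : q ^ 4 + (κ ^ 2 + 1) * s ^ 2 * q ^ 2 + q ^ 2 + C * ((κ * s) ^ 2 + 1) ≤ N + q - 2 := by
    omega
  have h1S := gen_one d m P Γ P (ww d hd P n) (Fin N)
  refine ⟨Equiv.Perm (Data.U (H := HH) (ι := Ls d P) Subtype.val m Γ P (ww d hd P n) ⊕ Fin N),
    inferInstance, inferInstance, _, gen_inv d m P Γ P (ww d hd P n) (Fin N), h1S, ?_, ?_⟩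
  · intro m' hm'
    have hmono : ((gen (Rel Subtype.val rh (Data.U (H := HH) (ι := Ls d P) Subtype.val m Γ P (ww d hd P n)))
        (Fin N)) ^ m').ncard ≤ ((gen (Rel Subtype.val rh
          (Data.U (H := HH) (ι := Ls d P) Subtype.val m Γ P (ww d hd P n))) (Fin N)) ^ m).ncard :=
      Set.ncard_le_ncard (Set.pow_subset_pow_right h1S hm') (Set.toFinite _)
    have hmono2 : ((gen (Rel Subtype.val rh (Data.U (H := HH) (ι := Ls d P) Subtype.val m Γ P (ww d hd P n)))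
        (Fin N)) ^ n).ncard ≤ ((gen (Rel Subtype.val rh
          (Data.U (H := HH) (ι := Ls d P) Subtype.val m Γ P (ww d hd P n))) (Fin N)) ^ m).ncard :=
      Set.ncard_le_ncard (Set.pow_subset_pow_right h1S (by omega)) (Set.toFinite _)
    exact (arith hs1 (Nat.factorial_pos _) hfac hle g1 g2 g3 hmono hmono2).1
  · have hmono2 : ((gen (Rel Subtype.val rh (Data.U (H := HH) (ι := Ls d P) Subtype.val m Γ P (ww d hd P n)))
        (Fin N)) ^ n).ncard ≤ ((gen (Rel Subtype.val rh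
          (Data.U (H := HH) (ι := Ls d P) Subtype.val m Γ P (ww d hd P n))) (Fin N)) ^ m).ncard :=
      Set.ncard_le_ncard (Set.pow_subset_pow_right h1S (by omega)) (Set.toFinite _)
    exact (arith hs1 (Nat.factorial_pos _) hfac hle g1 g2 g3 le_rfl hmono2).2

/-- finite groups: the implication fails for every `ε < 1/2` -/
theorem fin_main (ε : ℝ) (h0 : 0 < ε) (h1 : ε < 1 / 2) : ∃ K : ℕ, 1 ≤ K ∧ ∀ n₀ C : ℕ,
    ∃ (G : Type) (_ : Group G) (_ : Finite G) (S : Set G) (n : ℕ), n₀ ≤ n ∧ S⁻¹ = S ∧ (1 : G) ∈ S ∧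
      (S ^ ⌈(1 + ε) * n⌉₊).ncard ≤ K * (S ^ n).ncard ∧ C * (S ^ n).ncard < (S ^ (3 * n)).ncard := by
  have hδ : 0 < 1 - 2 * ε := by linarith
  set d := ⌈6 * ε / (1 - 2 * ε)⌉₊ + 1 with hd
  have hd1 : 1 ≤ d := by omega
  have hd2 : 6 * ε ≤ (1 - 2 * ε) * d := by
    have h2 : 6 * ε / (1 - 2 * ε) ≤ d := by
      rw [hd]; push_cast
      have := Nat.le_ceil (6 * ε / (1 - 2 * ε))
      linarith
    rw [div_le_iff₀ hδ] at h2
    linarith
  have hd3 : ε * ((d + 1) * (2 * (d : ℝ) ^ 2 + 1 + d)) ≤ (d : ℝ) ^ 3 := by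
    have hdr : (1 : ℝ) ≤ d := by exact_mod_cast hd1
    have h3 : ε * (3 * (d : ℝ) ^ 2 + 2 * d + 1) ≤ ε * (6 * (d : ℝ) ^ 2) := by
      apply mul_le_mul_of_nonneg_left _ h0.le
      nlinarith
    have h4 : 6 * ε * (d : ℝ) ^ 2 ≤ (1 - 2 * ε) * d * (d : ℝ) ^ 2 :=
      mul_le_mul_of_nonneg_right hd2 (by positivity)
    nlinarith
  refine ⟨(2 * d ^ 2 + 1) ^ 2 + 1, by omega, fun n₀ C => ?_⟩
  obtain ⟨G, hG, hF, S, hS1, hS2, hS3, hS4⟩ := fin_param d (n₀ + 1) C hd1 (by omega)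
  refine ⟨G, hG, hF, S, (d + 1) * (2 * d ^ 2 + 1 + d) * (n₀ + 1), ?_, hS1, hS2, hS3 _ ?_, hS4⟩
  · have : 1 * (n₀ + 1) ≤ (d + 1) * (2 * d ^ 2 + 1 + d) * (n₀ + 1) := by
      apply Nat.mul_le_mul_right
      exact Nat.one_le_iff_ne_zero.mpr (by positivity)
    omega
  · rw [Nat.ceil_le]
    push_cast
    have h5 := mul_le_mul_of_nonneg_right hd3 (show (0 : ℝ) ≤ (n₀ : ℝ) + 1 by positivity)
    nlinarith

end Pool.Agent.R819.BG
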